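import Pool.Agent.H58.FL.Targets

/-!
# The monopole numbers of a set of pairwise close unit vectors (row MNP)
-/

set_option autoImplicit false

namespace Pool.Agent.H70.FL

open Pool.Agent.H58.FL Pool.Agent.H59 Pool.Agent.H48.FR

noncomputable section

theorem pf_MNP (hTRI : T_TRI) (hSYM : T_SYM) (hINT : T_INT) (hFIV : T_FIV) : T_MNP := by
  intro E _ _ S hS hA
  have hpi := Real.pi_pos
  have hne : ∀ x ∈ S, ∀ y ∈ S, inner ℂ x y ≠ 0 := by
    intro x hx y hy h
    have h1 := hA x hx y hy
    unfold Adj at h1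
    rw [h, norm_zero] at h1
    norm_num at h1
  have hb : ∀ x ∈ S, ∀ y ∈ S, ∀ z ∈ S, |ar x y z| < 9 * Real.pi / 16 := fun x hx y hy z hz =>
    (hTRI E x y z (hS x hx) (hS y hy) (hS z hz) (hA x hx y hy) (hA y hy z hz) (hA z hz x hx)).2
  have hb' : ∀ x ∈ S, ∀ y ∈ S, ∀ z ∈ S, |ar x y z| < Real.pi := fun x hx y hy z hz =>
    lt_of_lt_of_le (hb x hx y hy z hz) (by linarith)
  have h21 : ∀ x ∈ S, ∀ y ∈ S, ∀ z ∈ S, ar y x z = -ar x y z := fun x hx y hy z hz =>
    ((hSYM E x y z).2.1 (hb' x hx y hy z hz)).1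
  have h32 : ∀ x ∈ S, ∀ y ∈ S, ∀ z ∈ S, ar x z y = -ar x y z := fun x hx y hy z hz =>
    ((hSYM E x y z).2.1 (hb' x hx y hy z hz)).2.1
  have hm : ∀ x ∈ S, ∀ y ∈ S, ∀ z ∈ S, ∀ w ∈ S,
      mn x y z w = (round (mn x y z w) : ℤ) := by
    intro x hx y hy z hz w hw
    obtain ⟨k, hk⟩ := (hINT E).1 x y z w (hne x hx y hy) (hne x hx z hz) (hne x hx w hw)
      (hne y hy z hz) (hne y hy w hw) (hne z hz w hw)
    rw [hk, round_intCast]
  have ha1 : ∀ x ∈ S, ∀ y ∈ S, ∀ z ∈ S, ∀ w ∈ S, mn y x z w = -mn x y z w := by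
    intro x hx y hy z hz w hw
    unfold mn
    rw [h21 x hx y hy w hw, h21 x hx y hy z hz]
    ring
  have ha2 : ∀ x ∈ S, ∀ y ∈ S, ∀ z ∈ S, ∀ w ∈ S, mn x z y w = -mn x y z w := by
    intro x hx y hy z hz w hw
    unfold mn
    rw [h21 y hy z hz w hw, h32 x hx y hy z hz]
    ring
  have ha3 : ∀ x ∈ S, ∀ y ∈ S, ∀ z ∈ S, ∀ w ∈ S, mn x y w z = -mn x y z w := by
    intro x hx y hy z hz w hw
    unfold mn
    rw [h32 y hy z hz w hw, h32 x hx z hz w hw]
    ring
  refine ⟨fun x y z w => round (mn x y z w), hm, ?_, ?_, ?_⟩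
  · intro x hx y hy z hz w hw
    refine ⟨?_, ?_, ?_, ?_⟩
    · have h1 := ha1 x hx y hy z hz w hw
      rw [hm x hx y hy z hz w hw, hm y hy x hx z hz w hw] at h1
      exact_mod_cast h1
    · have h1 := ha2 x hx y hy z hz w hw
      rw [hm x hx y hy z hz w hw, hm x hx z hz y hy w hw] at h1
      exact_mod_cast h1
    · have h1 := ha3 x hx y hy z hz w hw
      rw [hm x hx y hy z hz w hw, hm x hx y hy w hw z hz] at h1
      exact_mod_cast h1
    · have h1 : |mn x y z w| < 2 := by
        unfold mn
        rw [abs_div, abs_of_pos (by positivity : 0 < 2 * Real.pi), div_lt_iff₀ (by positivity)]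
        have e1 := abs_lt.1 (hb y hy z hz w hw)
        have e2 := abs_lt.1 (hb x hx z hz w hw)
        have e3 := abs_lt.1 (hb x hx y hy w hw)
        have e4 := abs_lt.1 (hb x hx y hy z hz)
        rw [abs_lt]
        constructor <;> linarith [e1.1, e1.2, e2.1, e2.2, e3.1, e3.2, e4.1, e4.2]
      rw [hm x hx y hy z hz w hw] at h1
      have h2 : |round (mn x y z w)| < 2 := by exact_mod_cast h1
      show |round (mn x y z w)| ≤ 1
      omega
  · intro x hx y hy z hz w hw v hv
    have h1 : mn y z w v - mn x z w v + mn x y w v - mn x y z v + mn x y z w = 0 := by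
      unfold mn
      ring
    rw [hm y hy z hz w hw v hv, hm x hx z hz w hw v hv, hm x hx y hy w hw v hv,
      hm x hx y hy z hz v hv, hm x hx y hy z hz w hw] at h1
    exact_mod_cast h1
  · intro x hx y hy z hz w hw v hv hne4
    set m : E → E → E → E → ℤ := fun x y z w => round (mn x y z w) with hmdef
    have hm' : ∀ x ∈ S, ∀ y ∈ S, ∀ z ∈ S, ∀ w ∈ S,
        ar y z w - ar x z w + ar x y w - ar x y z = 2 * Real.pi * (m x y z w : ℤ) := by
      intro x hx y hy z hz w hw
      have h1 : mn x y z w = (m x y z w : ℤ) := hm x hx y hy z hz w hw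
      rw [← h1]
      unfold mn
      field_simp
    let F : Fin 5 → Fin 5 → ℝ := ![
      ![0, ar z w v, -ar y w v, ar y z v, -ar y z w],
      ![-ar z w v, 0, ar x w v, -ar x z v, ar x z w],
      ![ar y w v, -ar x w v, 0, ar x y v, -ar x y w],
      ![-ar y z v, ar x z v, -ar x y v, 0, ar x y z],
      ![ar y z w, -ar x z w, ar x y w, -ar x y z, 0]]
    let k : Fin 5 → ℤ := ![m y z w v, -m x z w v, m x y w v, -m x y z v, m x y z w]
    have hF1 : ∀ i j, F i j = -F j i := by
      intro i j
      fin_cases i <;> fin_cases j <;> simp [F]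
    have hF2 : ∀ i j, |F i j| < 9 * Real.pi / 16 := by
      have h0 : (0 : ℝ) < 9 * Real.pi / 16 := by positivity
      intro i j
      fin_cases i <;> fin_cases j <;> simp [F, h0, hb x hx y hy z hz, hb x hx y hy w hw,
        hb x hx y hy v hv, hb x hx z hz w hw, hb x hx z hz v hv, hb x hx w hw v hv,
        hb y hy z hz w hw, hb y hy z hz v hv, hb y hy w hw v hv, hb z hz w hw v hv]
    have hF3 : ∀ i, ∑ j, F i j = 2 * Real.pi * k i := by
      have e0 := hm' y hy z hz w hw v hv
      have e1 := hm' x hx z hz w hw v hv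
      have e2 := hm' x hx y hy w hw v hv
      have e3 := hm' x hx y hy z hz v hv
      have e4 := hm' x hx y hy z hz w hw
      intro i
      rw [Fin.sum_univ_five]
      fin_cases i
      · show 0 + ar z w v + -ar y w v + ar y z v + -ar y z w =
          2 * Real.pi * ((m y z w v : ℤ) : ℝ)
        linarith
      · show -ar z w v + 0 + ar x w v + -ar x z v + ar x z w =
          2 * Real.pi * ((-m x z w v : ℤ) : ℝ)
        push_cast
        linarith
      · show ar y w v + -ar x w v + 0 + ar x y v + -ar x y w =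
          2 * Real.pi * ((m x y w v : ℤ) : ℝ)
        linarith
      · show -ar y z v + ar x z v + -ar x y v + 0 + ar x y z =
          2 * Real.pi * ((-m x y z v : ℤ) : ℝ)
        push_cast
        linarith
      · show ar y z w + -ar x z w + ar x y w + -ar x y z + 0 =
          2 * Real.pi * ((m x y z w : ℤ) : ℝ)
        linarith
    obtain ⟨-, -, h3⟩ := hFIV F k hF1 hF2 hF3
    obtain ⟨j, hj4, hjk, hother⟩ := h3 4 hne4
    -- alternation for the integers
    have i1 : ∀ x ∈ S, ∀ y ∈ S, ∀ z ∈ S, ∀ w ∈ S, m y x z w = -m x y z w := by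
      intro x hx y hy z hz w hw
      have h1 := ha1 x hx y hy z hz w hw
      rw [hm x hx y hy z hz w hw, hm y hy x hx z hz w hw] at h1
      exact_mod_cast h1
    have i2 : ∀ x ∈ S, ∀ y ∈ S, ∀ z ∈ S, ∀ w ∈ S, m x z y w = -m x y z w := by
      intro x hx y hy z hz w hw
      have h1 := ha2 x hx y hy z hz w hw
      rw [hm x hx y hy z hz w hw, hm x hx z hz y hy w hw] at h1
      exact_mod_cast h1
    have i3 : ∀ x ∈ S, ∀ y ∈ S, ∀ z ∈ S, ∀ w ∈ S, m x y w z = -m x y z w := by
      intro x hx y hy z hz w hw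
      have h1 := ha3 x hx y hy z hz w hw
      rw [hm x hx y hy z hz w hw, hm x hx y hy w hw z hz] at h1
      exact_mod_cast h1
    have r0 : m v y z w = -m y z w v := by
      rw [i1 y hy v hv z hz w hw, i2 y hy z hz v hv w hw, i3 y hy z hz w hw v hv]
      ring
    have r1 : m x v z w = m x z w v := by
      rw [i2 x hx z hz v hv w hw, i3 x hx z hz w hw v hv]
      ring
    have r2 : m x y v w = -m x y w v := i3 x hx y hy w hw v hv
    show (m v y z w ≠ 0 ∧ m x v z w = 0 ∧ m x y v w = 0 ∧ m x y z v = 0) ∨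
      (m v y z w = 0 ∧ m x v z w ≠ 0 ∧ m x y v w = 0 ∧ m x y z v = 0) ∨
      (m v y z w = 0 ∧ m x v z w = 0 ∧ m x y v w ≠ 0 ∧ m x y z v = 0) ∨
      (m v y z w = 0 ∧ m x v z w = 0 ∧ m x y v w = 0 ∧ m x y z v ≠ 0)
    have hne4' : m x y z w ≠ 0 := hne4
    have k0 : k 0 = m y z w v := rfl
    have k1 : k 1 = -m x z w v := rfl
    have k2 : k 2 = m x y w v := rfl
    have k3 : k 3 = -m x y z v := rfl
    have k4 : k 4 = m x y z w := rfl
    rw [r0, r1, r2]
    fin_cases j
    · have g1 := hother 1 (by decide) (by decide)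
      have g2 := hother 2 (by decide) (by decide)
      have g3 := hother 3 (by decide) (by decide)
      have g0 : k 0 = -k 4 := hjk
      rw [k0, k4] at g0
      rw [k1] at g1
      rw [k2] at g2
      rw [k3] at g3
      left
      omega
    · have g1 := hother 0 (by decide) (by decide)
      have g2 := hother 2 (by decide) (by decide)
      have g3 := hother 3 (by decide) (by decide)
      have g0 : k 1 = -k 4 := hjk
      rw [k1, k4] at g0
      rw [k0] at g1
      rw [k2] at g2
      rw [k3] at g3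
      right; left
      omega
    · have g1 := hother 0 (by decide) (by decide)
      have g2 := hother 1 (by decide) (by decide)
      have g3 := hother 3 (by decide) (by decide)
      have g0 : k 2 = -k 4 := hjk
      rw [k2, k4] at g0
      rw [k0] at g1
      rw [k1] at g2
      rw [k3] at g3
      right; right; left
      omega
    · have g1 := hother 0 (by decide) (by decide)
      have g2 := hother 1 (by decide) (by decide)
      have g3 := hother 2 (by decide) (by decide)
      have g0 : k 3 = -k 4 := hjk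
      rw [k3, k4] at g0
      rw [k0] at g1
      rw [k1] at g2
      rw [k2] at g3
      right; right; right
      omega
    · exact absurd rfl hj4

end

end Pool.Agent.H70.FL
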